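import Pool.Agent.Helper89.OS.St2

/-!
# Project OS, module TWA: counting in the case `2 ≤ a`
-/

set_option autoImplicit false

namespace Pool.Agent.Helper16.OS

open Matrix ComplexConjugate Pool.Agent.Helper94.YF Pool.Agent.Helper94.YG Pool.Agent.Helper89.OS

theorem TWA_cast {p a : ℕ} (hp : p.Prime) (ha : a ≠ 0) (x : ZMod (p ^ a)) :
    ZMod.castHom (dvd_pow_self p ha) (ZMod p) x = 0 ↔ p ∣ x.val := by
  have : NeZero p := ⟨hp.ne_zero⟩
  have : NeZero (p ^ a) := ⟨pow_ne_zero _ hp.ne_zero⟩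
  rw [ZMod.castHom_apply, ← ZMod.natCast_val, ZMod.natCast_eq_zero_iff]

theorem TWA_unit {p a : ℕ} (hp : p.Prime) (x : ZMod (p ^ a)) (hx : ¬ p ∣ x.val) : IsUnit x := by
  have : NeZero (p ^ a) := ⟨pow_ne_zero _ hp.ne_zero⟩
  have h : ((x.val : ℕ) : ZMod (p ^ a)) = x := ZMod.natCast_zmod_val x
  rw [← h, ZMod.isUnit_iff_coprime]
  exact Nat.Coprime.pow_right a ((Nat.Prime.coprime_iff_not_dvd hp).2 hx).symm

theorem TWA_sq {p a : ℕ} (hp : p.Prime) (hodd : Odd p) (ha : a ≠ 0) (c c0 : (ZMod (p ^ a))ˣ)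
    (h : (c : ZMod (p ^ a)) ^ 2 = (c0 : ZMod (p ^ a)) ^ 2) : c = c0 ∨ c = -c0 := by
  have hF : Fact p.Prime := ⟨hp⟩
  have hprod : ((c : ZMod (p ^ a)) - c0) * (c + c0) = 0 := by
    have : ((c : ZMod (p ^ a)) - c0) * (c + c0) = (c : ZMod (p ^ a)) ^ 2 - c0 ^ 2 := by ring
    rw [this, h, sub_self]
  by_cases h1 : p ∣ ((c : ZMod (p ^ a)) - c0).val
  · by_cases h2 : p ∣ ((c : ZMod (p ^ a)) + c0).val
    · exfalso
      rw [← TWA_cast hp ha] at h1 h2
      have h3 : ZMod.castHom (dvd_pow_self p ha) (ZMod p) ((c : ZMod (p ^ a)) * 2) = 0 := by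
        have e : (c : ZMod (p ^ a)) * 2 = ((c : ZMod (p ^ a)) - c0) + (c + c0) := by ring
        rw [e, map_add, h1, h2, add_zero]
      rw [map_mul, map_ofNat] at h3
      have h4 : (2 : ZMod p) ≠ 0 := by
        intro h5
        have h6 : ((2 : ℕ) : ZMod p) = 0 := by exact_mod_cast h5
        rw [ZMod.natCast_eq_zero_iff] at h6
        have h7 := (Nat.prime_dvd_prime_iff_eq hp Nat.prime_two).1 h6
        rw [h7] at hodd
        exact absurd hodd (by decide)
      have h5 : IsUnit (ZMod.castHom (dvd_pow_self p ha) (ZMod p) (c : ZMod (p ^ a))) :=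
        (c.isUnit).map _
      rcases mul_eq_zero.1 h3 with h6 | h6
      · exact h5.ne_zero h6
      · exact h4 h6
    · left
      have hu := TWA_unit hp _ h2
      have := (hu.mul_left_eq_zero).1 hprod
      exact Units.ext (sub_eq_zero.1 this)
  · right
    have hu := TWA_unit hp _ h1
    have := (hu.mul_right_eq_zero).1 hprod
    refine Units.ext ?_
    rw [Units.val_neg]
    exact eq_neg_of_add_eq_zero_left this

theorem TWA_units {p : ℕ} [NeZero (p ^ 2)] (hp : p.Prime) (F : ℕ → ℂ) :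
    ∑ w : (ZMod (p ^ 2))ˣ, F (w : ZMod (p ^ 2)).val =
      ∑ n ∈ Finset.range (p ^ 2), F n - ∑ m ∈ Finset.range p, F (p * m) := by
  have h1 := Finset.sum_filter_add_sum_filter_not (Finset.range (p ^ 2)) (fun n => p ∣ n) F
  have h2 : ∑ w : (ZMod (p ^ 2))ˣ, F (w : ZMod (p ^ 2)).val =
      ∑ n ∈ (Finset.range (p ^ 2)).filter (fun n => ¬ p ∣ n), F n := by
    refine Finset.sum_bij (fun w _ => (w : ZMod (p ^ 2)).val) ?_ ?_ ?_ ?_
    · intro w _
      rw [Finset.mem_filter, Finset.mem_range]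
      refine ⟨ZMod.val_lt _, ?_⟩
      intro hd
      have hc := ZMod.val_coe_unit_coprime w
      have := Nat.dvd_gcd hd (dvd_pow_self p two_ne_zero)
      rw [Nat.Coprime] at hc
      rw [hc] at this
      exact hp.one_lt.ne' (Nat.dvd_one.1 this)
    · intro w _ w' _ h
      exact Units.ext (ZMod.val_injective _ h)
    · intro n hn
      rw [Finset.mem_filter, Finset.mem_range] at hn
      have hc : Nat.Coprime n (p ^ 2) :=
        Nat.Coprime.pow_right 2 ((Nat.Prime.coprime_iff_not_dvd hp).2 hn.2).symm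
      refine ⟨ZMod.unitOfCoprime n hc, Finset.mem_univ _, ?_⟩
      rw [ZMod.coe_unitOfCoprime, ZMod.val_natCast_of_lt hn.1]
    · intro w _
      rfl
  have h3 : ∑ n ∈ (Finset.range (p ^ 2)).filter (fun n => p ∣ n), F n =
      ∑ m ∈ Finset.range p, F (p * m) := by
    symm
    refine Finset.sum_bij (fun m _ => p * m) ?_ ?_ ?_ ?_
    · intro m hm
      rw [Finset.mem_range] at hm
      rw [Finset.mem_filter, Finset.mem_range]
      refine ⟨?_, dvd_mul_right _ _⟩
      rw [sq]
      exact Nat.mul_lt_mul_of_pos_left hm hp.pos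
    · intro m _ m' _ h
      exact Nat.eq_of_mul_eq_mul_left hp.pos h
    · intro n hn
      rw [Finset.mem_filter, Finset.mem_range] at hn
      obtain ⟨hn1, m, rfl⟩ := hn
      refine ⟨m, ?_, rfl⟩
      rw [Finset.mem_range]
      rw [sq] at hn1
      exact Nat.lt_of_mul_lt_mul_left hn1
    · intro m _
      rfl
  rw [h2, ← h3, ← h1]
  ring

theorem TWA_geom (N : ℕ) (θ : ℂ) (h : θ ^ N = 1) [Decidable (θ = 1)] :
    ∑ n ∈ Finset.range N, θ ^ n = if θ = 1 then (N : ℂ) else 0 := by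
  split_ifs with h1
  · rw [h1]
    simp
  · have := geom_sum_mul θ N
    rw [h, sub_self] at this
    rcases mul_eq_zero.1 this with h2 | h2
    · exact h2
    · exact absurd (sub_eq_zero.1 h2) h1

open Classical in
theorem TWA_T {p : ℕ} [NeZero (p ^ 2)] (hp : p.Prime) (θ : ℂ) (h : θ ^ (p ^ 2) = 1) :
    ∑ w : (ZMod (p ^ 2))ˣ, θ ^ (w : ZMod (p ^ 2)).val =
      (if θ = 1 then (p : ℂ) ^ 2 else 0) - (if θ ^ p = 1 then (p : ℂ) else 0) := by
  rw [TWA_units hp (fun n => θ ^ n), TWA_geom (p ^ 2) θ h]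
  have h1 : ∑ m ∈ Finset.range p, θ ^ (p * m) = ∑ m ∈ Finset.range p, (θ ^ p) ^ m := by
    refine Finset.sum_congr rfl ?_
    intro m _
    rw [pow_mul]
  have h2 : (θ ^ p) ^ p = 1 := by
    rw [← pow_mul, ← sq]
    exact h
  rw [h1, TWA_geom p (θ ^ p) h2]
  push_cast
  rfl

open Classical in
/-- TWA -/
theorem hTWA : StTWA := by
  intro I _ _ p a X ha
  have hp := X.prime
  have hF : Fact p.Prime := ⟨hp⟩
  have hp3 : 3 ≤ p := by
    have h2 := hp.two_le
    rcases Nat.lt_or_ge p 3 with h | h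
    · exfalso
      have e : p = 2 := by omega
      have := X.p_odd
      rw [e] at this
      exact absurd this (by decide)
    · exact h
  have hNZ : NeZero (p ^ a) := ⟨pow_ne_zero _ hp.ne_zero⟩
  -- sum of squares
  have hyy : ∑ k, X.y k ^ 2 = (p : ℤ) ^ 2 := by
    have h := X.s_uni X.o X.o
    rw [if_pos rfl] at h
    have e : ∀ k, X.s X.o k * conj (X.s X.o k) = ((X.y k ^ 2 : ℤ) : ℂ) := by
      intro k
      rw [X.s_symm, X.s_o]
      have : conj ((X.y k : ℤ) : ℂ) = ((X.y k : ℤ) : ℂ) := by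
        rw [← Complex.ofReal_intCast, Complex.conj_ofReal]
      rw [this]
      push_cast
      ring
    rw [Finset.sum_congr rfl (fun k _ => e k)] at h
    exact_mod_cast h
  -- part 1
  obtain ⟨k0, hk0, hk0t⟩ := X.ex
  set E : Finset I := Finset.univ.filter fun k => X.y k ≠ 0 ∧ X.t k ^ (p ^ (a - 1)) ≠ 1 with hE
  have hEm : ∀ k, k ∈ E ↔ X.y k ≠ 0 ∧ X.t k ^ (p ^ (a - 1)) ≠ 1 := by
    intro k
    rw [hE, Finset.mem_filter]
    exact ⟨fun h => h.2, fun h => ⟨Finset.mem_univ _, h⟩⟩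
  have hprim : IsPrimitiveRoot (X.t k0) (p ^ a) := by
    have h1 : X.t k0 ^ p ^ ((a - 1) + 1) = 1 := by
      have : a - 1 + 1 = a := by omega
      rw [this]
      exact X.t_pow k0
    have h2 := orderOf_eq_prime_pow hk0t h1
    have h3 : a - 1 + 1 = a := by omega
    rw [h3] at h2
    rw [← h2]
    exact IsPrimitiveRoot.orderOf _
  have hcE : ∀ c : (ZMod (p ^ a))ˣ, X.pi c k0 ∈ E := by
    intro c
    rw [hEm]
    refine ⟨by rw [X.pi_y]; exact hk0, ?_⟩
    intro h
    apply hk0t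
    have h1 : X.pi c⁻¹ (X.pi c k0) = k0 := by
      rw [← X.pi_mul, inv_mul_cancel, X.pi_one]
    have h2 := X.pi_t c⁻¹ (X.pi c k0)
    rw [h1] at h2
    rw [h2, ← pow_mul, mul_comm, pow_mul, h, one_pow]
  have hstE : ∀ k, k ∈ E → X.st k ∈ E := by
    intro k hk
    rw [hEm] at hk ⊢
    rw [X.y_st, X.t_st]
    exact hk
  have hstne : ∀ k, k ∈ E → k ≠ X.st k := by
    intro k hk h
    have h1 := X.nsd k h.symm
    rw [hEm] at hk
    apply hk.2
    rw [h1, X.t_o, one_pow]
  have hφ : Nat.totient (p ^ a) ≤ E.card := by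
    set S2 : Finset ℂ := Finset.univ.image
      (fun c : (ZMod (p ^ a))ˣ => X.t k0 ^ ((c : ZMod (p ^ a)) ^ 2).val) with hS2
    have h1 : (Finset.univ : Finset (ZMod (p ^ a))ˣ).card ≤ 2 * S2.card := by
      refine Finset.card_le_mul_card_image _ 2 ?_
      intro b hb
      rw [Finset.mem_image] at hb
      obtain ⟨c0, -, hc0⟩ := hb
      refine le_trans (Finset.card_le_card (t := {c0, -c0}) ?_) Finset.card_le_two
      intro c hc
      rw [Finset.mem_filter] at hc
      have h2 := hc.2.trans hc0.symm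
      have h3 := hprim.pow_inj (ZMod.val_lt _) (ZMod.val_lt _) h2
      have h4 := TWA_sq hp X.p_odd (by omega) c c0 (ZMod.val_injective _ h3)
      rw [Finset.mem_insert, Finset.mem_singleton]
      exact h4
    have h2 : 2 * S2.card ≤ (E.filter fun k => X.t k ∈ S2).card := by
      refine Finset.mul_card_image_le_card_of_maps_to (f := X.t) ?_ 2 ?_
      · intro k hk
        rw [Finset.mem_filter] at hk
        exact hk.2
      · intro b hb
        have hb' := hb
        rw [hS2, Finset.mem_image] at hb'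
        obtain ⟨c, -, hc⟩ := hb'
        have hk := hcE c
        have ht : X.t (X.pi c k0) = b := by
          rw [X.pi_t]
          exact hc
        rw [← Finset.card_pair (hstne _ hk)]
        refine Finset.card_le_card ?_
        intro k hk2
        rw [Finset.mem_insert, Finset.mem_singleton] at hk2
        rw [Finset.mem_filter, Finset.mem_filter]
        rcases hk2 with rfl | rfl
        · exact ⟨⟨hk, by rw [ht]; exact hb⟩, ht⟩
        · exact ⟨⟨hstE _ hk, by rw [X.t_st, ht]; exact hb⟩, by rw [X.t_st, ht]⟩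
    have h3 : (Finset.univ : Finset (ZMod (p ^ a))ˣ).card = Nat.totient (p ^ a) := by
      rw [Finset.card_univ, ZMod.card_units_eq_totient]
    rw [← h3]
    exact (h1.trans h2).trans (Finset.card_le_card (Finset.filter_subset _ _))
  have hEy : (E.card : ℤ) ≤ ∑ k ∈ E, X.y k ^ 2 := by
    have : (E.card : ℤ) = ∑ k ∈ E, (1 : ℤ) := by simp
    rw [this]
    refine Finset.sum_le_sum ?_
    intro k hk
    have h1 := ((hEm k).1 hk).1
    have := sq_pos_of_ne_zero h1
    linarith
  have hEp : ∑ k ∈ E, X.y k ^ 2 ≤ (p : ℤ) ^ 2 := by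
    rw [← hyy]
    exact Finset.sum_le_sum_of_subset_of_nonneg (Finset.subset_univ _) (fun k _ _ => sq_nonneg _)
  -- part 2
  have ha2 : a = 2 := by
    by_contra hne
    have ha3 : 2 ≤ a - 1 := by omega
    have e : Nat.totient (p ^ a) = p ^ (a - 1) * (p - 1) := Nat.totient_prime_pow hp (by omega)
    have h1 : p ^ 2 ≤ p ^ (a - 1) := Nat.pow_le_pow_right hp.pos ha3
    have h2 : p ^ 2 * 2 ≤ p ^ (a - 1) * (p - 1) := Nat.mul_le_mul h1 (by omega)
    have h3 : ((p ^ (a - 1) * (p - 1) : ℕ) : ℤ) ≤ (p : ℤ) ^ 2 := by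
      rw [← e]
      exact (Nat.cast_le.2 hφ).trans (hEy.trans hEp)
    have h4 : p ^ (a - 1) * (p - 1) ≤ p ^ 2 := by exact_mod_cast h3
    have h5 : 0 < p ^ 2 := pow_pos hp.pos 2
    omega
  subst ha2
  have htot : Nat.totient (p ^ 2) = p * (p - 1) := by
    rw [Nat.totient_prime_pow hp (by norm_num)]
    simp
  have hpp : p * (p - 1) + p = p ^ 2 := by
    obtain ⟨r, rfl⟩ : ∃ r, p = r + 1 := ⟨p - 1, by omega⟩
    simp only [Nat.add_sub_cancel]
    ring
  have hEc : p ^ 2 ≤ E.card + p := by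
    rw [htot] at hφ
    omega
  have hE2 : ∀ k, k ∈ E ↔ X.y k ≠ 0 ∧ X.t k ^ p ≠ 1 := by
    intro k
    have := hEm k
    simpa using this
  -- part 3
  have hx : ∀ w : (ZMod (p ^ 2))ˣ, ∑ k, X.t k ^ (w : ZMod (p ^ 2)).val * ((X.y k ^ 2 : ℤ) : ℂ) =
      (p : ℂ) * (X.y X.o : ℂ) := by
    intro w
    have h := X.weil w X.o X.o
    rw [X.t_o, one_pow, X.pi_o, X.s_o, mul_one, mul_one] at h
    rw [← h]
    refine Finset.sum_congr rfl ?_
    intro k _
    rw [X.s_symm X.o k, X.s_o]
    push_cast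
    ring
  set M1 : ℤ := ∑ i, if X.t i = 1 then X.y i ^ 2 else 0 with hM1
  set q : ℤ := ∑ i, if X.t i ^ p = 1 then X.y i ^ 2 else 0 with hq
  have hcard : ((Fintype.card (ZMod (p ^ 2))ˣ : ℕ) : ℂ) = (p : ℂ) ^ 2 - p := by
    rw [ZMod.card_units_eq_totient, htot]
    have : ((p * (p - 1) + p : ℕ) : ℂ) = ((p ^ 2 : ℕ) : ℂ) := by rw [hpp]
    push_cast at this ⊢
    linear_combination this
  have hmainC : (p : ℂ) ^ 2 * (M1 : ℂ) - p * (q : ℂ) = ((p : ℂ) ^ 2 - p) * (p * (X.y X.o : ℂ)) := by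
    have h1 : ∑ w : (ZMod (p ^ 2))ˣ, ∑ k, X.t k ^ (w : ZMod (p ^ 2)).val * ((X.y k ^ 2 : ℤ) : ℂ) =
        ((p : ℂ) ^ 2 - p) * (p * (X.y X.o : ℂ)) := by
      rw [Finset.sum_congr rfl (fun w _ => hx w), Finset.sum_const, Finset.card_univ, nsmul_eq_mul,
        hcard]
    rw [← h1, Finset.sum_comm]
    have h2 : ∀ k, ∑ w : (ZMod (p ^ 2))ˣ, X.t k ^ (w : ZMod (p ^ 2)).val * ((X.y k ^ 2 : ℤ) : ℂ) =
        (p : ℂ) ^ 2 * (((if X.t k = 1 then X.y k ^ 2 else 0 : ℤ)) : ℂ) -
          p * (((if X.t k ^ p = 1 then X.y k ^ 2 else 0 : ℤ)) : ℂ) := by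
      intro k
      rw [← Finset.sum_mul, TWA_T hp _ (X.t_pow k)]
      split_ifs <;> push_cast <;> ring
    rw [Finset.sum_congr rfl (fun k _ => h2 k), Finset.sum_sub_distrib, ← Finset.mul_sum,
      ← Finset.mul_sum, hM1, hq]
    push_cast
    rfl
  have hmain : (p : ℤ) * (p * M1 - q) = p * (p * ((p - 1) * X.y X.o)) := by
    have : (p : ℤ) ^ 2 * M1 - p * q = ((p : ℤ) ^ 2 - p) * (p * X.y X.o) := by
      exact_mod_cast hmainC
    linear_combination this
  have hpz : (p : ℤ) ≠ 0 := by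
    have := hp.ne_zero
    exact_mod_cast this
  have hmain2 := mul_left_cancel₀ hpz hmain
  have hp3z : (3 : ℤ) ≤ p := by exact_mod_cast hp3
  -- bounds for q
  have hq0 : 0 ≤ q := by
    rw [hq]
    refine Finset.sum_nonneg ?_
    intro k _
    split_ifs
    · exact sq_nonneg _
    · exact le_rfl
  have hM10 : 0 ≤ M1 := by
    rw [hM1]
    refine Finset.sum_nonneg ?_
    intro k _
    split_ifs
    · exact sq_nonneg _
    · exact le_rfl
  have hM1q : M1 ≤ q := by
    rw [hM1, hq]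
    refine Finset.sum_le_sum ?_
    intro k _
    by_cases h1 : X.t k = 1
    · have h2 : X.t k ^ p = 1 := by rw [h1, one_pow]
      rw [if_pos h1, if_pos h2]
    · rw [if_neg h1]
      split_ifs
      · exact sq_nonneg _
      · exact le_rfl
  have hqE : q + ∑ k ∈ E, X.y k ^ 2 ≤ (p : ℤ) ^ 2 := by
    rw [← hyy, hq]
    have h1 : ∑ k ∈ E, X.y k ^ 2 = ∑ k, if k ∈ E then X.y k ^ 2 else 0 := by
      rw [Finset.sum_ite_mem, Finset.univ_inter]
    rw [h1, ← Finset.sum_add_distrib]
    refine Finset.sum_le_sum ?_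
    intro k _
    by_cases h2 : X.t k ^ p = 1
    · have h3 : k ∉ E := fun h => ((hE2 k).1 h).2 h2
      rw [if_pos h2, if_neg h3, add_zero]
    · rw [if_neg h2, zero_add]
      split_ifs
      · exact le_rfl
      · exact sq_nonneg _
  have hqp : q ≤ p := by
    have h1 : ((p ^ 2 : ℕ) : ℤ) ≤ ((E.card + p : ℕ) : ℤ) := Nat.cast_le.2 hEc
    push_cast at h1
    linarith
  have hqd : (p : ℤ) ∣ q := ⟨M1 - (p - 1) * X.y X.o, by linear_combination (-1 : ℤ) * hmain2⟩
  obtain ⟨r, hr⟩ := hqd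
  have hr0 : 0 ≤ r := by
    by_contra h
    have : (p : ℤ) * r < 0 := mul_neg_of_pos_of_neg (by linarith) (by linarith)
    linarith
  have hr1 : r ≤ 1 := by
    by_contra h
    have h2 : 2 ≤ r := by omega
    have : (p : ℤ) * 2 ≤ p * r := mul_le_mul_of_nonneg_left h2 (by linarith)
    linarith
  have hqz : q ≠ 0 := by
    intro h0
    have h1 : ∀ k, (if X.t k ^ p = 1 then X.y k ^ 2 else 0) = 0 := by
      have h2 := (Finset.sum_eq_zero_iff_of_nonneg (s := Finset.univ)
        (f := fun k => if X.t k ^ p = 1 then X.y k ^ 2 else 0) ?_).1 (hq.symm.trans h0)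
      · intro k
        exact h2 k (Finset.mem_univ k)
      · intro k _
        show (0 : ℤ) ≤ if X.t k ^ p = 1 then X.y k ^ 2 else 0
        split_ifs
        · exact sq_nonneg _
        · exact le_rfl
    have h2 : ∑ i, X.y i * (X.kap i : ℤ) = 0 := by
      refine Finset.sum_eq_zero ?_
      intro i _
      by_cases h3 : X.kap i = 0
      · rw [h3]
        simp
      · have h4 := X.kap_t i h3
        have h5 := h1 i
        rw [if_pos (by rw [h4, one_pow])] at h5
        rw [pow_eq_zero_iff (two_ne_zero)] at h5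
        rw [h5, zero_mul]
    rw [X.kap_y] at h2
    exact hpz h2
  have hr1' : r = 1 := by
    rcases (by omega : r = 0 ∨ r = 1) with h | h
    · exfalso
      apply hqz
      rw [hr, h, mul_zero]
    · exact h
  have hqe : q = p := by rw [hr, hr1', mul_one]
  have hM1x : M1 = 1 + (p - 1) * X.y X.o := by
    have : (p : ℤ) * M1 = p * (1 + (p - 1) * X.y X.o) := by
      rw [hqe] at hmain2
      linear_combination hmain2
    exact mul_left_cancel₀ hpz this
  have hx1 : X.y X.o ≤ 1 := by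
    by_contra h
    have h2 : 2 ≤ X.y X.o := by omega
    have h3 : ((p : ℤ) - 1) * 2 ≤ (p - 1) * X.y X.o := mul_le_mul_of_nonneg_left h2 (by linarith)
    linarith
  have hx0 : 0 ≤ X.y X.o := by
    by_contra h
    have h2 : X.y X.o ≤ -1 := by omega
    have h3 : ((p : ℤ) - 1) * X.y X.o ≤ (p - 1) * (-1) := mul_le_mul_of_nonneg_left h2 (by linarith)
    linarith
  have hxne : X.y X.o ≠ 0 := by
    intro h0
    rw [h0, mul_zero, add_zero] at hM1x
    -- there is a `k` with `t k = 1`, `y k ≠ 0`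
    obtain ⟨k, hk⟩ : ∃ k, (if X.t k = 1 then X.y k ^ 2 else 0) ≠ 0 := by
      by_contra hcon
      have hcon' : ∀ k, (if X.t k = 1 then X.y k ^ 2 else 0) = 0 := by
        intro k
        by_contra h
        exact hcon ⟨k, h⟩
      have : M1 = 0 := by
        rw [hM1]
        exact Finset.sum_eq_zero (fun k _ => hcon' k)
      rw [this] at hM1x
      exact zero_ne_one hM1x
    have ht : X.t k = 1 := by
      by_contra h
      rw [if_neg h] at hk
      exact hk rfl
    rw [if_pos ht] at hk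
    have hy : X.y k ≠ 0 := fun h => hk (by rw [h]; ring)
    have hne : k ≠ X.st k := by
      intro h
      have h1 := X.nsd k h.symm
      rw [h1] at hy
      exact hy h0
    have h2 : ∑ i ∈ ({k, X.st k} : Finset I), (if X.t i = 1 then X.y i ^ 2 else 0) ≤ M1 := by
      rw [hM1]
      refine Finset.sum_le_sum_of_subset_of_nonneg (Finset.subset_univ _) ?_
      intro i _ _
      split_ifs
      · exact sq_nonneg _
      · exact le_rfl
    rw [Finset.sum_pair hne, X.t_st, X.y_st, if_pos ht, hM1x] at h2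
    have := sq_pos_of_ne_zero hy
    linarith
  have hx11 : X.y X.o = 1 := by omega
  have hM1p : M1 = p := by
    rw [hM1x, hx11]
    ring
  refine ⟨rfl, hx11, hM1p, ?_, ?_⟩
  · intro k hk ht
    by_contra hne
    have h1 : M1 < q := by
      rw [hM1, hq]
      refine Finset.sum_lt_sum ?_ ⟨k, Finset.mem_univ _, ?_⟩
      · intro i _
        by_cases h1 : X.t i = 1
        · have h2 : X.t i ^ p = 1 := by rw [h1, one_pow]
          rw [if_pos h1, if_pos h2]
        · rw [if_neg h1]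
          split_ifs
          · exact sq_nonneg _
          · exact le_rfl
      · rw [if_neg hne, if_pos ht]
        exact sq_pos_of_ne_zero hk
    rw [hM1p, hqe] at h1
    exact lt_irrefl _ h1
  · refine hEc.trans (Nat.add_le_add_right (Finset.card_le_card ?_) _)
    intro k hk
    have h1 := (hE2 k).1 hk
    rw [Finset.mem_filter]
    refine ⟨Finset.mem_univ _, h1.1, ?_⟩
    intro h2
    apply h1.2
    rw [h2, one_pow]

end Pool.Agent.Helper16.OS
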